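import Pool.Agent.Helper48.LB.Class

/-!
# List colouring bounded by the maximum colour degree: light and neat components

Lists of size `d + 2` suffice, and this is best possible, when every component of every colour
class is neat (for example chordal without induced `K_{1,r+1}`) or light (at most `B` vertices and
`S`-colourable), provided that `4 r S log (8 B (d + 2) ^ 5) ≤ d + 2`.
-/

namespace Pool.Agent.Results.MP_69e632_co.LightAndNeat

open Pool.Agent.Helper48.HX Pool.Agent.Helper48.LB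

theorem result :
    -- the upper bound
    (∀ r S B d : ℕ, 0 < r → 0 < S → 0 < B →
      4 * r * S * Real.log (8 * B * (d + 2) ^ 5) ≤ d + 2 → SufficesM r S B d (d + 2)) ∧
    -- the exact value
    (∀ r S B d : ℕ, 0 < r → 2 ≤ S → 2 * d ≤ B → 0 < d →
      4 * r * S * Real.log (8 * B * (d + 2) ^ 5) ≤ d + 2 → fM r S B d = d + 2) ∧
    -- complete and complete bipartite components
    (∀ d : ℕ, 3 ≤ d → d + 2 ≤ fK d) ∧ (∀ d : ℕ, 300 ≤ d → fK d = d + 2) ∧
    -- chordal components without induced `K_{1,r+1}` are neat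
    (∀ (V C : Type) [Fintype V] (G : SimpleGraph V) (L : V → Finset C) (r d : ℕ), 0 < r →
      ColourDegreeLE G L d → ∀ (v : V) (α : C) (K : Set V), v ∈ K → (∀ u ∈ K, α ∈ L u) →
      (∀ u ∈ K, ∀ w, G.Adj u w → α ∈ L w → w ∈ K) →
      (∀ W : Set V, W ⊆ K → W.Nonempty →
        ∃ x ∈ W, ∀ y ∈ W, ∀ z ∈ W, G.Adj x y → G.Adj x z → y ≠ z → G.Adj y z) →
      (∀ y ∈ K, ∀ I : Finset V, (∀ u ∈ I, u ∈ K ∧ G.Adj y u) →
        (∀ u ∈ I, ∀ w ∈ I, ¬ G.Adj u w) → I.card ≤ r) → Neat G L r d v α) ∧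
    -- so are components where `N(x) ∪ N(y)` has at most `d + 1` vertices and no `r + 1`
    -- independent ones, for all edges `xy`
    (∀ (V C : Type) [Fintype V] (G : SimpleGraph V) (L : V → Finset C) (r d : ℕ)
      (v : V) (α : C) (K : Set V), v ∈ K → (∀ u ∈ K, α ∈ L u) →
      (∀ u ∈ K, ∀ w, G.Adj u w → α ∈ L w → w ∈ K) →
      (∀ x ∈ K, ∀ y ∈ K, G.Adj x y → {u | u ∈ K ∧ (G.Adj x u ∨ G.Adj y u)}.ncard ≤ d + 1 ∧
        ∀ I : Finset V, (∀ u ∈ I, u ∈ K ∧ (G.Adj x u ∨ G.Adj y u)) →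
        (∀ u ∈ I, ∀ w ∈ I, ¬ G.Adj u w) → I.card ≤ r) → Neat G L r d v α) :=
  ⟨fun _ _ _ _ hr hS hB h => suffices_of_log hS hr hB h,
    fun _ _ _ _ hr hS hB hd h => fM_eq hS hr hB hd h,
    fun _ hd => le_fK hd, fun _ hd => fK_eq hd,
    fun _ _ _ _ _ _ _ hr hdeg _ _ K hv hKL hK hs hc =>
      neat_of_chordal hr hdeg K hv hKL hK hs hc,
    fun _ _ _ _ _ _ _ _ _ K hv hKL hK hc => neat_of_edges K hv hKL hK hc⟩

end Pool.Agent.Results.MP_69e632_co.LightAndNeat
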