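import Pool.Agent.Helper96.NB.Iter

/-!
# List colouring bounded by the maximum colour degree: `f(d) ≤ d + O(√(d log d))`
-/

namespace Pool.Agent.Results.MP_69e632_co.SqrtError

open Finset Real

/-- the maximum colour degree of `(G, L)` is at most `d`: for every vertex `v` and every colour
`α` in its list, at most `d` neighbours `w` of `v` have `α` in their list -/
def ColourDegreeLE {V C : Type} (G : SimpleGraph V) (L : V → Finset C) (d : ℕ) : Prop :=
  ∀ v, ∀ α ∈ L v, {w | G.Adj v w ∧ α ∈ L w}.ncard ≤ d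

/-- `G` has a proper colouring from the lists -/
def ListColourable {V C : Type} (G : SimpleGraph V) (L : V → Finset C) : Prop :=
  ∃ c : V → C, (∀ v, c v ∈ L v) ∧ ∀ v w, G.Adj v w → c v ≠ c w

/-- lists of size at least `k` suffice whenever the maximum colour degree is at most `d` -/
def Suffices (d k : ℕ) : Prop :=
  ∀ (V C : Type) [Fintype V] (G : SimpleGraph V) (L : V → Finset C),
    ColourDegreeLE G L d → (∀ v, k ≤ (L v).card) → ListColourable G L

/-- the least sufficient list size -/
noncomputable def f (d : ℕ) : ℕ := sInf {k | Suffices d k}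

theorem suffices_of_good {d k : ℕ} (h : Helper96.NB.Good k d) : Suffices d k := by
  classical
  intro V C _ G L hd hk
  let e : V ≃ Fin (Fintype.card V) := Fintype.equivFin V
  -- an injective enumeration of `k` colours of every list
  have hex : ∀ v, ∃ g : Fin k → C, Function.Injective g ∧ ∀ i, g i ∈ L v := by
    intro v
    obtain ⟨T, hT, hTc⟩ := Finset.exists_subset_card_eq (hk v)
    let g := T.equivFinOfCardEq hTc
    exact ⟨fun i => (g.symm i).1, fun i j hij => g.symm.injective (Subtype.ext hij),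
      fun i => hT (g.symm i).2⟩
  choose g hginj hgmem using hex
  let E : Fin (Fintype.card V) × Fin k → Fin (Fintype.card V) × Fin k → Prop := fun s t =>
    G.Adj (e.symm s.1) (e.symm t.1) ∧ g (e.symm s.1) s.2 = g (e.symm t.1) t.2
  have hconf : Helper96.NB.Conf E := by
    refine ⟨fun s t h => ⟨h.1.symm, h.2.symm⟩, fun s t h hst => ?_, fun s t t' h h' htt => ?_⟩
    · have := h.1
      rw [hst] at this
      exact G.loopless.irrefl _ this
    · have h1 : g (e.symm t.1) t.2 = g (e.symm t'.1) t'.2 := h.2.symm.trans h'.2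
      rw [htt] at h1
      exact Prod.ext htt (hginj _ h1)
  obtain ⟨c, hc⟩ := h (Fintype.card V) E hconf (by
    intro s
    refine le_trans ?_ (hd (e.symm s.1) (g (e.symm s.1) s.2) (hgmem _ _))
    rw [← Set.ncard_coe_finset]
    refine Set.ncard_le_ncard_of_injOn (fun t => e.symm t.1) ?_ ?_ (Set.toFinite _)
    · intro t ht
      have hE : E s t := Helper96.NB.mem_N.1 (Finset.mem_coe.1 ht)
      refine ⟨hE.1, ?_⟩
      rw [hE.2]
      exact hgmem _ _
    · intro t ht t' ht' htt
      have hE : E s t := Helper96.NB.mem_N.1 (Finset.mem_coe.1 ht)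
      have hE' : E s t' := Helper96.NB.mem_N.1 (Finset.mem_coe.1 ht')
      exact hconf.mat s t t' hE hE' (e.symm.injective htt))
  refine ⟨fun v => g v (c (e v)), fun v => hgmem _ _, fun v w hvw heq => ?_⟩
  refine hc (e v) (e w) ⟨?_, ?_⟩
  · simpa using hvw
  · simpa using heq

theorem result (d : ℕ) (hd : 1 ≤ d) :
    Suffices d (f d) ∧ (f d : ℝ) ≤ d + 1500 * √(d * log (d + 1)) := by
  set R : ℝ := √(d * log ((d : ℝ) + 1)) with hR
  set k : ℕ := ⌈(d : ℝ) + 1400 * R⌉₊ with hk
  have hs : Suffices d k := suffices_of_good (Helper96.NB.good_main d hd k (Nat.le_ceil _))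
  have hne : {k | Suffices d k}.Nonempty := ⟨k, hs⟩
  refine ⟨Nat.sInf_mem hne, ?_⟩
  have h1 : f d ≤ k := Nat.sInf_le hs
  have h2 : (f d : ℝ) ≤ k := by exact_mod_cast h1
  have hd' : (1 : ℝ) ≤ d := by exact_mod_cast hd
  have hlog : (0.69 : ℝ) < log ((d : ℝ) + 1) := by
    have h3 : log 2 ≤ log ((d : ℝ) + 1) := Real.log_le_log (by norm_num) (by linarith)
    linarith [Real.log_two_gt_d9]
  have hR1 : (0.5 : ℝ) ≤ R := by
    rw [hR]
    apply Real.le_sqrt_of_sq_le
    nlinarith
  have h4 : (k : ℝ) < (d : ℝ) + 1400 * R + 1 := Nat.ceil_lt_add_one (by positivity)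
  linarith

end Pool.Agent.Results.MP_69e632_co.SqrtError
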