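import Pool.Agent.Helper48.TH.Rough

/-!
# List colouring bounded by the maximum colour degree: tame and rough colours

A colour `α` is tame at `v` when the component of `v` in the colour class of `α` can be eliminated
with explosions of at most `d + 1` vertices, for example when it is chordal. With at most `j`
rough colours at every vertex, whose neighbourhoods in the colour class have independence number
at most `r`, lists of size `d + 1 + ⌈j (r - 1) d / ((2 r - 1) d + r)⌉` suffice; for `r ≥ 2`,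
`j ≥ 1` and `j (r - 1) d ≤ (2 r - 1) d + r` the least sufficient size is exactly `d + 2`.
-/

namespace Pool.Agent.Results.MP_69e632_co.TameColours

open Pool.Agent.Helper48.HX Pool.Agent.Helper48.TH Finset

theorem sufficesR_fR {j r d : ℕ} (hr : 1 ≤ r) (hd : 1 ≤ d) :
    SufficesR j r d (fR j r d) ∧ fR j r d ≤ d + 1 +
      ⌈((j * ((r - 1) * d) : ℕ) : ℚ) / (((2 * r - 1) * d + r : ℕ) : ℚ)⌉₊ := by
  set P : ℕ := (2 * r - 1) * d + r with hP
  have h : SufficesR j r d (d + 1 + ⌈((j * ((r - 1) * d) : ℕ) : ℚ) / (P : ℚ)⌉₊) := by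
    apply sufficesR_of_le hd hr
    have h0 : (0 : ℚ) < (P : ℚ) := by
      have : 0 < P := by omega
      exact_mod_cast this
    have h1 := Nat.le_ceil (((j * ((r - 1) * d) : ℕ) : ℚ) / (P : ℚ))
    rw [div_le_iff₀ h0] at h1
    have h2 : j * ((r - 1) * d) ≤ ⌈((j * ((r - 1) * d) : ℕ) : ℚ) / (P : ℚ)⌉₊ * P := by
      exact_mod_cast h1
    rw [← hP]
    calc P * (d + 1) + j * ((r - 1) * d) ≤ P * (d + 1) +
          ⌈((j * ((r - 1) * d) : ℕ) : ℚ) / (P : ℚ)⌉₊ * P := by omega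
      _ = _ := by ring
  exact ⟨Nat.sInf_mem (s := {k | SufficesR j r d k}) ⟨_, h⟩, Nat.sInf_le h⟩

theorem sufficesR_mono {j r d k l : ℕ} (h : SufficesR j r d k) (hkl : k ≤ l) :
    SufficesR j r d l :=
  fun V C _ G L h1 h2 h3 h4 => h V C G L h1 (fun v => hkl.trans (h2 v)) h3 h4

theorem le_fR {j r d : ℕ} (hj : 1 ≤ j) (hr : 2 ≤ r) (hd : 2 ≤ d) : d + 2 ≤ fR j r d := by
  by_contra hcon
  exact not_sufficesR hd hj hr
    (sufficesR_mono (sufficesR_fR (j := j) (by omega : 1 ≤ r) (by omega : 1 ≤ d)).1 (by omega))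

theorem fR_eq {j r d : ℕ} (hj : 1 ≤ j) (hr : 2 ≤ r) (hd : 2 ≤ d)
    (hjd : j * ((r - 1) * d) ≤ (2 * r - 1) * d + r) : fR j r d = d + 2 := by
  refine le_antisymm (Nat.sInf_le ?_) (le_fR hj hr hd)
  apply sufficesR_of_le (by omega : 1 ≤ d) (by omega : 1 ≤ r)
  calc ((2 * r - 1) * d + r) * (d + 1) + j * ((r - 1) * d)
      ≤ ((2 * r - 1) * d + r) * (d + 1) + ((2 * r - 1) * d + r) := by omega
    _ = ((2 * r - 1) * d + r) * (d + 2) := by ring

theorem suffices_two_mul {d : ℕ} (hd : 1 ≤ d) : Suffices d (2 * d) := by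
  classical
  intro V C _ G L hdeg hk
  refine weighted G L (fun _ _ => 2 * d) ?_ ?_
  · intro α x y v hxy hx hy hv hxyv
    have hsub : {w | α ∈ L w ∧ (G.Adj x w ∨ G.Adj y w)} ⊆
        {w | G.Adj x w ∧ α ∈ L w} ∪ {w | G.Adj y w ∧ α ∈ L w} := by
      rintro w ⟨hw, h1 | h1⟩
      · exact Or.inl ⟨h1, hw⟩
      · exact Or.inr ⟨h1, hw⟩
    refine (Set.ncard_le_ncard hsub (Set.toFinite _)).trans ?_
    refine (Set.ncard_union_le _ _).trans ?_
    have h1 := hdeg x α hx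
    have h2 := hdeg y α hy
    omega
  · intro v
    rw [Finset.sum_const, nsmul_eq_mul, mul_one_div]
    have h0 : (0 : ℚ) < ((2 * d : ℕ) : ℚ) := by exact_mod_cast (by omega : 0 < 2 * d)
    rw [le_div_iff₀ h0, one_mul]
    exact_mod_cast hk v

theorem le_f {d : ℕ} (hd : 2 ≤ d) : d + 2 ≤ f d := by
  have h1 : Suffices d (f d) :=
    Nat.sInf_mem (s := {k | Suffices d k}) ⟨_, suffices_two_mul (by omega : 1 ≤ d)⟩
  by_contra hcon
  exact not_sufficesR (j := 1) (r := 2) hd le_rfl le_rfl fun V C _ G L h2 h3 _ _ =>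
    h1 V C G L h2 fun v => le_trans (by omega) (h3 v)

theorem result :
    -- the elimination criterion
    (∀ (V C : Type) [Fintype V] (G : SimpleGraph V) (L : V → Finset C) (w : V → C → ℚ),
      (∀ v α, 0 ≤ w v α) →
      (∀ α, ∀ W : Finset V, (∀ v ∈ W, α ∈ L v) → W.Nonempty → ∃ x ∈ W, ∃ l : List V,
        l.Nodup ∧ (∀ y, y ∈ l ↔ y ∈ W ∧ G.Adj x y) ∧ ∀ y t, (y :: t) <:+ l →
          ∀ T ⊆ W, (∀ v ∈ T, v ∈ y :: t ∨ G.Adj y v) → ∑ v ∈ T, w v α ≤ 1) →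
      (∀ v, (1 : ℚ) ≤ ∑ α ∈ L v, w v α) → ListColourable G L) ∧
    -- at most `j` rough colours at every vertex: the upper bound
    (∀ j r d : ℕ, 1 ≤ r → 1 ≤ d → SufficesR j r d (fR j r d) ∧
      fR j r d ≤ d + 1 + ⌈((j * ((r - 1) * d) : ℕ) : ℚ) / (((2 * r - 1) * d + r : ℕ) : ℚ)⌉₊) ∧
    -- the exact value in a range of `j`
    (∀ j r d : ℕ, 1 ≤ j → 2 ≤ r → 2 ≤ d → j * ((r - 1) * d) ≤ (2 * r - 1) * d + r →
      fR j r d = d + 2) ∧
    -- the lower bounds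
    (∀ j r d : ℕ, 1 ≤ j → 2 ≤ r → 2 ≤ d → d + 2 ≤ fR j r d) ∧
    (∀ d : ℕ, 2 ≤ d → d + 2 ≤ f d) ∧
    -- chordal components are tame
    (∀ (V C : Type) [Fintype V] (G : SimpleGraph V) (L : V → Finset C) (d : ℕ),
      ColourDegreeLE G L d → ∀ (v : V) (α : C) (K : Set V), v ∈ K →
      (∀ u ∈ K, ∀ w, G.Adj u w → α ∈ L w → w ∈ K) →
      (∀ W : Set V, W ⊆ K → (∀ u ∈ W, α ∈ L u) → W.Nonempty →
        ∃ x ∈ W, ∀ y ∈ W, ∀ z ∈ W, G.Adj x y → G.Adj x z → y ≠ z → G.Adj y z) →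
      Tame G L d v α) :=
  ⟨fun _ _ _ G L w hw h hsum => colourable_of_elim G L w hw h hsum,
    fun _ _ _ hr hd => sufficesR_fR hr hd, fun _ _ _ hj hr hd hjd => fR_eq hj hr hd hjd,
    fun _ _ _ hj hr hd => le_fR hj hr hd, fun _ hd => le_f hd,
    fun _ _ _ _ _ _ hdeg _ _ K hv hK h => tame_of_simplicial hdeg K hv hK h⟩

end Pool.Agent.Results.MP_69e632_co.TameColours
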